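import Pool.Agent.Helper22.AE.Defs
import Pool.Agent.Helper79.EG.VdC

/-!
# VC: van der Corput's k-th derivative test

`vdc_test`: if `F 0, ..., F k` is a tower of derivatives on `[0, N]` and `lam ≤ F k ≤ h lam` there, then
`|∑_{n < N} e(F 0 n)| ≤ C_k(h) (N lam^(1/(2^k - 2)) + N^(1 - 4/2^k) lam^(-1/(2^k - 2)))`, `k ≥ 2`.
-/

open Set Filter

set_option autoImplicit false

namespace Pool.Agent.Helper72.VC

open Pool.Agent.Helper22.AE (ee ee_norm ee_add ee_zero ee_neg)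

theorem ee_eq (x : ℝ) : Pool.Agent.Helper22.GC.ee x = ee x := by
  unfold Pool.Agent.Helper22.GC.ee ee
  congr 1
  push_cast
  ring

theorem ee_sub' (x y : ℝ) : ee (x - y) = ee x * (starRingEnd ℂ) (ee y) := by
  rw [sub_eq_add_neg, ee_add, ee_neg]

/-- a tower of derivatives on `[0, N]` with `lam ≤ F k ≤ h lam` -/
structure Tow (k : ℕ) (F : ℕ → ℝ → ℝ) (N lam h : ℝ) : Prop where
  der : ∀ j < k, ∀ x ∈ Icc (0 : ℝ) N, HasDerivAt (F j) (F (j + 1) x) x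
  lo : ∀ x ∈ Icc (0 : ℝ) N, lam ≤ F k x
  hi : ∀ x ∈ Icc (0 : ℝ) N, F k x ≤ h * lam

theorem Tow.mono {k : ℕ} {F : ℕ → ℝ → ℝ} {N N' lam h : ℝ} (T : Tow k F N lam h) (hN : N' ≤ N) : Tow k F N' lam h :=
  ⟨fun j hj x hx => T.der j hj x ⟨hx.1, hx.2.trans hN⟩, fun x hx => T.lo x ⟨hx.1, hx.2.trans hN⟩,
    fun x hx => T.hi x ⟨hx.1, hx.2.trans hN⟩⟩

/-- mean value theorem for a tower -/
theorem mvt {G G' : ℝ → ℝ} {a b : ℝ} (hab : a ≤ b) (hG : ∀ x ∈ Icc a b, HasDerivAt G (G' x) x) :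
    ∃ c ∈ Icc a b, G b - G a = G' c * (b - a) := by
  rcases eq_or_lt_of_le hab with rfl | h
  · exact ⟨a, ⟨le_rfl, le_rfl⟩, by ring⟩
  · obtain ⟨c, hc, hc2⟩ := exists_hasDerivAt_eq_slope G G' h (fun x hx => (hG x hx).continuousAt.continuousWithinAt)
      (fun x hx => hG x ⟨hx.1.le, hx.2.le⟩)
    refine ⟨c, ⟨hc.1.le, hc.2.le⟩, ?_⟩
    rw [hc2]
    field_simp [sub_ne_zero.2 h.ne']

/-- differencing a tower -/
theorem Tow.diff {k : ℕ} {F : ℕ → ℝ → ℝ} {N lam h u : ℝ} (T : Tow (k + 1) F N lam h) (hu : 0 ≤ u) (_huN : u ≤ N) :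
    Tow k (fun j x => F j (x + u) - F j x) (N - u) (u * lam) h := by
  have key : ∀ x ∈ Icc (0 : ℝ) (N - u), ∃ c ∈ Icc (0 : ℝ) N, F k (x + u) - F k x = F (k + 1) c * u := by
    intro x hx
    obtain ⟨c, hc, h1⟩ := mvt (G := F k) (G' := F (k + 1)) (a := x) (b := x + u) (by linarith)
      (fun y hy => T.der k (by omega) y ⟨hx.1.trans hy.1, by linarith [hy.2, hx.2]⟩)
    exact ⟨c, ⟨hx.1.trans hc.1, by linarith [hc.2, hx.2]⟩, by rw [h1]; ring⟩
  refine ⟨fun j hj x hx => ?_, fun x hx => ?_, fun x hx => ?_⟩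
  · have h1 := (T.der j (by omega) (x + u) ⟨by linarith [hx.1], by linarith [hx.2]⟩).comp_add_const x u
    exact h1.sub (T.der j (by omega) x ⟨hx.1, by linarith [hx.2]⟩)
  · obtain ⟨c, hc, h1⟩ := key x hx
    rw [h1, mul_comm]
    exact mul_le_mul_of_nonneg_right (T.lo c hc) hu
  · obtain ⟨c, hc, h1⟩ := key x hx
    rw [h1]
    have := mul_le_mul_of_nonneg_right (T.hi c hc) hu
    linarith

/-- the trivial bound -/
theorem triv (f : ℝ → ℝ) (N : ℕ) : ‖∑ n ∈ Finset.range N, ee (f n)‖ ≤ N := by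
  refine (norm_sum_le _ _).trans ?_
  simp [ee_norm]

/-- the second derivative test -/
theorem test2 {h : ℝ} (hh : 0 ≤ h) {F : ℕ → ℝ → ℝ} {N : ℕ} {lam : ℝ} (hl : 0 < lam) (T : Tow 2 F N lam h) :
    ‖∑ n ∈ Finset.range N, ee (F 0 n)‖ ≤ (5 * h + 10) * (N * lam ^ (1 / 2 : ℝ) + lam ^ (-(1 / 2) : ℝ)) := by
  have hN : (0 : ℝ) ≤ N := Nat.cast_nonneg N
  have hs : 0 < lam ^ (1 / 2 : ℝ) := Real.rpow_pos_of_pos hl _
  have hs' : 0 < lam ^ (-(1 / 2) : ℝ) := Real.rpow_pos_of_pos hl _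
  rcases le_or_gt lam (1 / 4) with h4 | h4
  · have key : ∀ p q : ℕ, p ≤ q → q < N → ∃ c ∈ Icc (0 : ℝ) N,
        (F 0 ((q + 1 : ℕ) : ℝ) - F 0 (q : ℝ)) - (F 0 ((p + 1 : ℕ) : ℝ) - F 0 (p : ℝ)) = F 2 c * ((q : ℝ) - p) := by
      intro p q hpq hq
      have hpq' : (p : ℝ) ≤ q := by exact_mod_cast hpq
      have hq' : (q : ℝ) + 1 ≤ N := by exact_mod_cast hq
      have hp0 : (0 : ℝ) ≤ p := Nat.cast_nonneg p
      have T1 := T.diff (u := 1) (by norm_num) (by linarith)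
      obtain ⟨c, hc, h1⟩ := mvt (G := fun x => F 0 (x + 1) - F 0 x) (G' := fun x => F 1 (x + 1) - F 1 x)
        (a := (p : ℝ)) (b := q) hpq' (fun x hx => T1.der 0 (by norm_num) x ⟨hp0.trans hx.1, by linarith [hx.2]⟩)
      obtain ⟨c', hc', h2⟩ := mvt (G := F 1) (G' := F 2) (a := c) (b := c + 1) (by linarith)
        (fun x hx => T.der 1 (by norm_num) x ⟨(hp0.trans hc.1).trans hx.1, by linarith [hx.2, hc.2]⟩)
      refine ⟨c', ⟨(hp0.trans hc.1).trans hc'.1, by linarith [hc'.2, hc.2]⟩, ?_⟩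
      push_cast
      have h3 : F 1 (c + 1) - F 1 c = F 2 c' := by rw [h2]; ring
      rw [h1, h3]
    have hmain := Pool.Agent.Helper22.GC.second_deriv_test (f := fun n => F 0 (n : ℝ)) (a := 0) (b := N)
      (l := lam) (V := h * lam * N) hl h4 (by positivity) ?_ ?_
    · have e1 : ∑ n ∈ Finset.Ico 0 N, Pool.Agent.Helper22.GC.ee (F 0 (n : ℝ)) = ∑ n ∈ Finset.range N, ee (F 0 n) := by
        rw [Finset.range_eq_Ico]
        exact Finset.sum_congr rfl fun n _ => ee_eq _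
      rw [← e1]
      refine hmain.trans ?_
      have e2 : √lam = lam ^ (1 / 2 : ℝ) := Real.sqrt_eq_rpow lam
      have e3 : lam ^ (-(1 / 2) : ℝ) = (lam ^ (1 / 2 : ℝ))⁻¹ := Real.rpow_neg hl.le _
      have e4 : lam = lam ^ (1 / 2 : ℝ) * lam ^ (1 / 2 : ℝ) := by
        rw [← Real.rpow_add hl]
        norm_num
      rw [e2, e3]
      set s := lam ^ (1 / 2 : ℝ)
      rw [e4]
      have e5 : 5 * (h * (s * s) * N + 2) / s = 5 * h * (N * s) + 10 * s⁻¹ := by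
        field_simp
        ring
      rw [e5]
      have h6 : 0 ≤ s⁻¹ := by positivity
      have h7 : 0 ≤ N * s := by positivity
      nlinarith
    · intro n _ hn
      obtain ⟨c, hc, h1⟩ := key n (n + 1) (by omega) hn
      have h2 := T.lo c hc
      push_cast at h1 ⊢
      have h3 : (n : ℝ) + 1 + 1 = n + 2 := by ring
      rw [h3] at h1
      rw [h1]
      linarith
    · intro p q _ hpq hq
      obtain ⟨c, hc, h1⟩ := key p q hpq hq
      push_cast at h1 ⊢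
      rw [h1]
      have h2 := T.hi c hc
      have h3 : (q : ℝ) ≤ N := by exact_mod_cast hq.le
      have h4 : (p : ℝ) ≤ q := by exact_mod_cast hpq
      have h5 : (0 : ℝ) ≤ p := Nat.cast_nonneg p
      calc F 2 c * ((q : ℝ) - p) ≤ h * lam * ((q : ℝ) - p) := mul_le_mul_of_nonneg_right h2 (by linarith)
        _ ≤ h * lam * N := mul_le_mul_of_nonneg_left (by linarith) (by positivity)
  · refine (triv _ N).trans ?_
    have h5 : 1 / 2 ≤ lam ^ (1 / 2 : ℝ) := by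
      rw [← Real.sqrt_eq_rpow]
      exact Real.le_sqrt_of_sq_le (by norm_num; linarith)
    have h6 : (N : ℝ) ≤ 10 * (N * lam ^ (1 / 2 : ℝ)) := by nlinarith
    have h7 : 0 ≤ N * lam ^ (1 / 2 : ℝ) := by positivity
    nlinarith

theorem sum_inv_sqrt (H : ℕ) : ∑ u ∈ Finset.Ico 1 (H + 1), (u : ℝ) ^ (-(1 / 2) : ℝ) ≤ 2 * (H : ℝ) ^ (1 / 2 : ℝ) := by
  induction H with
  | zero => simp
  | succ H ih =>
    rw [Finset.sum_Ico_succ_top (by omega)]
    have hH0 : (0 : ℝ) ≤ H := Nat.cast_nonneg H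
    have h1 : ((H + 1 : ℕ) : ℝ) ^ (-(1 / 2) : ℝ) = (√((H : ℝ) + 1))⁻¹ := by
      rw [Real.rpow_neg (by positivity), Real.sqrt_eq_rpow]
      push_cast
      rfl
    rw [← Real.sqrt_eq_rpow] at ih
    rw [h1, ← Real.sqrt_eq_rpow]
    push_cast
    have h2 : 0 < √((H : ℝ) + 1) := Real.sqrt_pos.2 (by linarith)
    have h3 : √(H : ℝ) ≤ √((H : ℝ) + 1) := Real.sqrt_le_sqrt (by linarith)
    have h4 : √(H : ℝ) ^ 2 = H := Real.sq_sqrt hH0
    have h5 : √((H : ℝ) + 1) ^ 2 = H + 1 := Real.sq_sqrt (by linarith)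
    have h6 : (√((H : ℝ) + 1))⁻¹ ≤ 2 * √((H : ℝ) + 1) - 2 * √(H : ℝ) := by
      rw [inv_le_iff_one_le_mul₀ h2]
      nlinarith [Real.sqrt_nonneg (H : ℝ)]
    linarith

/-- `∑ u^(-a) ≤ 2 H^(1-a)` for `0 ≤ a ≤ 1/2` -/
theorem sum_inv_rpow {a : ℝ} (ha2 : a ≤ 1 / 2) {H : ℕ} (hH : 1 ≤ H) :
    ∑ u ∈ Finset.Ico 1 H, (u : ℝ) ^ (-a) ≤ 2 * (H : ℝ) ^ (1 - a) := by
  have hH0 : (0 : ℝ) < H := by exact_mod_cast hH
  obtain ⟨G, rfl⟩ : ∃ G, H = G + 1 := ⟨H - 1, by omega⟩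
  have h1 : ∀ u ∈ Finset.Ico 1 (G + 1), (u : ℝ) ^ (-a) ≤ ((G + 1 : ℕ) : ℝ) ^ (1 / 2 - a) * (u : ℝ) ^ (-(1 / 2) : ℝ) := by
    intro u hu
    rw [Finset.mem_Ico] at hu
    have hu0 : (0 : ℝ) < u := by exact_mod_cast hu.1
    have hu1 : (u : ℝ) ≤ ((G + 1 : ℕ) : ℝ) := by exact_mod_cast hu.2.le
    have e1 : (u : ℝ) ^ (-a) = (u : ℝ) ^ (1 / 2 - a) * (u : ℝ) ^ (-(1 / 2) : ℝ) := by
      rw [← Real.rpow_add hu0]
      congr 1
      ring
    rw [e1]
    exact mul_le_mul_of_nonneg_right (Real.rpow_le_rpow hu0.le hu1 (by linarith)) (by positivity)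
  refine (Finset.sum_le_sum h1).trans ?_
  rw [← Finset.mul_sum]
  have h2 := sum_inv_sqrt G
  have h3 : (G : ℝ) ^ (1 / 2 : ℝ) ≤ ((G + 1 : ℕ) : ℝ) ^ (1 / 2 : ℝ) :=
    Real.rpow_le_rpow (Nat.cast_nonneg G) (by push_cast; linarith) (by norm_num)
  calc ((G + 1 : ℕ) : ℝ) ^ (1 / 2 - a) * ∑ i ∈ Finset.Ico 1 (G + 1), (i : ℝ) ^ (-(1 / 2) : ℝ)
      ≤ ((G + 1 : ℕ) : ℝ) ^ (1 / 2 - a) * (2 * ((G + 1 : ℕ) : ℝ) ^ (1 / 2 : ℝ)) := by
        refine mul_le_mul_of_nonneg_left (by linarith) (by positivity)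
    _ = 2 * (((G + 1 : ℕ) : ℝ) ^ (1 / 2 - a) * ((G + 1 : ℕ) : ℝ) ^ (1 / 2 : ℝ)) := by ring
    _ = 2 * ((G + 1 : ℕ) : ℝ) ^ (1 - a) := by
        rw [← Real.rpow_add hH0]
        congr 2
        ring

/-- van der Corput's inequality for a sum of characters -/
theorem aproc (f : ℝ → ℝ) {N H : ℕ} (hH : 1 ≤ H) (hHN : H ≤ N) :
    ‖∑ n ∈ Finset.range N, ee (f n)‖ ^ 2 ≤ 2 * (N : ℝ) ^ 2 / H + 4 * N / H * ∑ u ∈ Finset.Ico 1 H,
      ‖∑ n ∈ Finset.range (N - u), ee (f (n + u) - f n)‖ := by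
  classical
  set z : ℤ → ℂ := fun m => if 1 ≤ m ∧ m ≤ N then ee (f ((m : ℝ) - 1)) else 0 with hz
  have hz1 : ∀ n, ‖z n‖ ≤ 1 := by
    intro n
    rw [hz]
    dsimp only
    split_ifs
    · rw [ee_norm]
    · simp
  have hz0 : ∀ n : ℤ, (n < 1 ∨ (N : ℤ) < n) → z n = 0 := by
    intro n hn
    rw [hz]
    dsimp only
    rw [if_neg]
    omega
  have h := EG.VdC.van_der_corput z N H hH hz1 hz0
  have e1 : ∑ n ∈ Finset.Ico (1 : ℤ) (N + 1), z n = ∑ n ∈ Finset.range N, ee (f n) := by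
    symm
    refine Finset.sum_bij (fun n _ => ((n : ℤ) + 1)) ?_ ?_ ?_ ?_
    · intro n hn
      rw [Finset.mem_range] at hn
      rw [Finset.mem_Ico]
      omega
    · intro n _ m _ hnm
      simpa using hnm
    · intro m hm
      rw [Finset.mem_Ico] at hm
      exact ⟨(m - 1).toNat, by rw [Finset.mem_range]; omega, by omega⟩
    · intro n hn
      rw [Finset.mem_range] at hn
      rw [hz]
      dsimp only
      rw [if_pos (by omega)]
      push_cast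
      congr 2
      ring
  have e2 : ∀ u ∈ Finset.Ico 1 H, ∑ n ∈ Finset.Ico (1 : ℤ) (N + 1), z (n + u) * (starRingEnd ℂ) (z n) =
      ∑ n ∈ Finset.range (N - u), ee (f (n + u) - f n) := by
    intro u hu
    rw [Finset.mem_Ico] at hu
    symm
    have hsub : (Finset.range (N - u)).image (fun n : ℕ => (n : ℤ) + 1) ⊆ Finset.Ico (1 : ℤ) (N + 1) := by
      intro m hm
      rw [Finset.mem_image] at hm
      obtain ⟨n, hn, rfl⟩ := hm
      rw [Finset.mem_range] at hn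
      rw [Finset.mem_Ico]
      omega
    rw [← Finset.sum_subset hsub, Finset.sum_image]
    · refine Finset.sum_congr rfl fun n hn => ?_
      rw [Finset.mem_range] at hn
      rw [hz]
      dsimp only
      rw [if_pos (by omega), if_pos (by omega), ee_sub']
      push_cast
      congr 3
      · ring
      · congr 1
        ring
    · intro n _ m _ hnm
      simpa using hnm
    · intro m hm hm2
      rw [Finset.mem_Ico] at hm
      have : z (m + u) = 0 := by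
        refine hz0 _ (Or.inr ?_)
        by_contra hcon
        refine hm2 ?_
        rw [Finset.mem_image]
        exact ⟨(m - 1).toNat, by rw [Finset.mem_range]; omega, by omega⟩
      rw [this, zero_mul]
  have e3 : ∑ u ∈ Finset.Ico 1 H, ‖∑ n ∈ Finset.Ico (1 : ℤ) (N + 1), z (n + u) * (starRingEnd ℂ) (z n)‖ =
      ∑ u ∈ Finset.Ico 1 H, ‖∑ n ∈ Finset.range (N - u), ee (f (n + u) - f n)‖ :=
    Finset.sum_congr rfl fun u hu => by rw [e2 u hu]
  rw [e1, e3] at h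
  have hH0 : (0 : ℝ) < H := by exact_mod_cast hH
  have hN0 : (H : ℝ) ≤ N := by exact_mod_cast hHN
  set S := ‖∑ n ∈ Finset.range N, ee (f n)‖
  set W := ∑ u ∈ Finset.Ico 1 H, ‖∑ n ∈ Finset.range (N - u), ee (f (n + u) - f n)‖
  have h0 : 0 ≤ W := Finset.sum_nonneg fun _ _ => norm_nonneg _
  have h1 : (H : ℝ) * S ^ 2 ≤ 2 * N * (N + 2 * W) := by
    refine h.trans (mul_le_mul_of_nonneg_right (by linarith) (by positivity))
  rw [show 2 * (N : ℝ) ^ 2 / H + 4 * N / H * W = (2 * N * (N + 2 * W)) / H by ring, le_div_iff₀ hH0]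
  linarith

/-- the inductive step -/
theorem step {K C h : ℝ} (hK : 2 ≤ K) (hC : 0 ≤ C) {k : ℕ}
    (ih : ∀ (F : ℕ → ℝ → ℝ) (N : ℕ) (lam : ℝ), 0 < lam → Tow k F N lam h →
      ‖∑ n ∈ Finset.range N, ee (F 0 n)‖ ≤ C * (N * lam ^ (1 / (2 * K - 2)) + (N : ℝ) ^ (1 - 2 / K) * lam ^ (-(1 / (2 * K - 2)))))
    (F : ℕ → ℝ → ℝ) (N : ℕ) (lam : ℝ) (hl : 0 < lam) (T : Tow (k + 1) F N lam h) :
    ‖∑ n ∈ Finset.range N, ee (F 0 n)‖ ≤
      (4 * C + 4) * (N * lam ^ (1 / (4 * K - 2)) + (N : ℝ) ^ (1 - 1 / K) * lam ^ (-(1 / (4 * K - 2)))) := by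
  have hN0 : (0 : ℝ) ≤ N := Nat.cast_nonneg N
  have hK1 : 0 < 2 * K - 1 := by linarith
  have hK2 : 0 < 2 * K - 2 := by linarith
  set p : ℝ := 1 / (2 * K - 1) with hp
  set a : ℝ := 1 / (2 * K - 2) with ha
  have hp0 : 0 < p := by positivity
  have ha0 : 0 < a := by positivity
  have ha2 : a ≤ 1 / 2 := by
    rw [ha, div_le_div_iff₀ hK2 (by norm_num)]
    linarith
  have hp2 : 1 / (4 * K - 2) = p / 2 := by
    rw [hp]
    have : (4 * K - 2) = (2 * K - 1) * 2 := by ring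
    rw [this]
    field_simp
  have hpa : (1 - p) * a = p := by
    have e1 : 1 - p = (2 * K - 2) * p := by
      have e0 : (2 * K - 1) * p = 1 := by
        rw [hp]
        field_simp
      linear_combination -e0
    have e2 : (2 * K - 2) * a = 1 := by
      rw [ha]
      exact mul_one_div_cancel hK2.ne'
    rw [e1]
    linear_combination p * e2
  rw [hp2]
  set A : ℝ := N * lam ^ (p / 2) with hA
  set B : ℝ := (N : ℝ) ^ (1 - 1 / K) * lam ^ (-(p / 2)) with hB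
  have hA0 : 0 ≤ A := by positivity
  have hB0 : 0 ≤ B := by positivity
  set S := ‖∑ n ∈ Finset.range N, ee (F 0 n)‖ with hS
  have hSN : S ≤ N := triv (F 0) N
  have fin1 : ∀ X : ℝ, 0 ≤ X → X ≤ A + B → X ≤ (4 * C + 4) * (A + B) := fun X _ hX2 => by nlinarith
  rcases le_or_gt 1 lam with h1 | h1
  · refine fin1 S (norm_nonneg _) (hSN.trans ?_)
    have h2 : 1 ≤ lam ^ (p / 2) := Real.one_le_rpow h1 (by positivity)
    have : (N : ℝ) ≤ A := by rw [hA]; nlinarith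
    linarith
  set y : ℝ := lam ^ (-p) with hy
  have hy1 : 1 ≤ y := Real.one_le_rpow_of_pos_of_le_one_of_nonpos hl h1.le (by linarith)
  have hy0 : 0 < y := by linarith
  rcases lt_or_ge (N : ℝ) y with h2 | h2
  · refine fin1 S (norm_nonneg _) (hSN.trans ?_)
    rcases Nat.eq_zero_or_pos N with h3 | h3
    · rw [h3]
      simp only [Nat.cast_zero]
      positivity
    · have hN1 : (1 : ℝ) ≤ N := by exact_mod_cast h3
      have hN1' : (0 : ℝ) < N := by linarith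
      have h4 : lam ^ (-(p / 2)) = y ^ (1 / 2 : ℝ) := by
        rw [hy, ← Real.rpow_mul hl.le]
        congr 1
        ring
      have h5 : (N : ℝ) ^ (1 / 2 : ℝ) ≤ y ^ (1 / 2 : ℝ) := Real.rpow_le_rpow hN0 h2.le (by norm_num)
      have h6 : (N : ℝ) ≤ (N : ℝ) ^ (1 - 1 / K) * (N : ℝ) ^ (1 / 2 : ℝ) := by
        rw [← Real.rpow_add hN1']
        conv_lhs => rw [← Real.rpow_one (N : ℝ)]
        refine Real.rpow_le_rpow_of_exponent_le hN1 ?_
        have : 1 / K ≤ 1 / 2 := one_div_le_one_div_of_le (by norm_num) hK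
        linarith
      have h7 : (N : ℝ) ≤ B := by
        rw [hB, h4]
        exact h6.trans (mul_le_mul_of_nonneg_left h5 (by positivity))
      linarith
  -- the main case
  set H : ℕ := ⌊y⌋₊ with hH
  have hH1 : 1 ≤ H := Nat.le_floor (by exact_mod_cast hy1)
  have hHy : (H : ℝ) ≤ y := Nat.floor_le hy0.le
  have hyH : y ≤ 2 * H := by
    have := Nat.lt_floor_add_one y
    have h3 : (1 : ℝ) ≤ H := by exact_mod_cast hH1
    rw [← hH] at this
    linarith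
  have hHN : H ≤ N := by
    have : (H : ℝ) ≤ N := hHy.trans h2
    exact_mod_cast this
  have hH0 : (0 : ℝ) < H := by exact_mod_cast hH1
  have hN1' : (0 : ℝ) < N := lt_of_lt_of_le hy0 h2
  have hb0 : 0 ≤ 1 - 2 / K := by
    have : 2 / K ≤ 1 := by
      rw [div_le_one (by linarith)]
      exact hK
    linarith
  have hap := aproc (F 0) hH1 hHN
  have hU : ∀ u ∈ Finset.Ico 1 H, ‖∑ n ∈ Finset.range (N - u), ee (F 0 (n + u) - F 0 n)‖ ≤
      C * (N * ((H : ℝ) * lam) ^ a + (N : ℝ) ^ (1 - 2 / K) * lam ^ (-a) * (u : ℝ) ^ (-a)) := by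
    intro u hu
    rw [Finset.mem_Ico] at hu
    have hu0 : (0 : ℝ) < u := by exact_mod_cast hu.1
    have huH : (u : ℝ) ≤ H := by exact_mod_cast hu.2.le
    have huN : (u : ℝ) ≤ N := huH.trans (hHy.trans h2)
    have T1 := T.diff hu0.le huN
    have e1 : ((N - u : ℕ) : ℝ) = (N : ℝ) - u := by
      rw [Nat.cast_sub]
      exact_mod_cast huN
    rw [← e1] at T1
    have h3 := ih _ (N - u) (u * lam) (by positivity) T1
    refine h3.trans (mul_le_mul_of_nonneg_left ?_ hC)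
    have h4 : ((N - u : ℕ) : ℝ) ≤ N := by rw [e1]; linarith
    have h4' : (0 : ℝ) ≤ ((N - u : ℕ) : ℝ) := Nat.cast_nonneg _
    refine add_le_add ?_ ?_
    · refine mul_le_mul h4 (Real.rpow_le_rpow (by positivity) ?_ ha0.le) (by positivity) hN0
      exact mul_le_mul_of_nonneg_right huH hl.le
    · rw [Real.mul_rpow hu0.le hl.le]
      have h5 : ((N - u : ℕ) : ℝ) ^ (1 - 2 / K) ≤ (N : ℝ) ^ (1 - 2 / K) := Real.rpow_le_rpow h4' h4 hb0
      have h6 : 0 ≤ (u : ℝ) ^ (-a) * lam ^ (-a) := by positivity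
      calc ((N - u : ℕ) : ℝ) ^ (1 - 2 / K) * ((u : ℝ) ^ (-a) * lam ^ (-a))
          ≤ (N : ℝ) ^ (1 - 2 / K) * ((u : ℝ) ^ (-a) * lam ^ (-a)) := mul_le_mul_of_nonneg_right h5 h6
        _ = _ := by ring
  have hsum := Finset.sum_le_sum hU
  rw [← Finset.mul_sum, Finset.sum_add_distrib, Finset.sum_const, Nat.card_Ico, ← Finset.mul_sum] at hsum
  have h3 := sum_inv_rpow ha2 hH1
  have h4 : ∑ u ∈ Finset.Ico 1 H, ‖∑ n ∈ Finset.range (N - u), ee (F 0 (n + u) - F 0 n)‖ ≤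
      C * (H * (N * ((H : ℝ) * lam) ^ a) + (N : ℝ) ^ (1 - 2 / K) * lam ^ (-a) * (2 * (H : ℝ) ^ (1 - a))) := by
    refine hsum.trans (mul_le_mul_of_nonneg_left (add_le_add ?_ ?_) hC)
    · rw [nsmul_eq_mul]
      refine mul_le_mul_of_nonneg_right ?_ (by positivity)
      exact_mod_cast Nat.sub_le _ _
    · exact mul_le_mul_of_nonneg_left h3 (by positivity)
  have h5 : (H : ℝ) ^ (1 - a) = H * (H : ℝ) ^ (-a) := by
    rw [sub_eq_add_neg, Real.rpow_add hH0, Real.rpow_one]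
  have h6 : lam ^ (-a) * (H : ℝ) ^ (-a) = ((H : ℝ) * lam) ^ (-a) := by
    rw [Real.mul_rpow hH0.le hl.le]
    ring
  have h7 : S ^ 2 ≤ 2 * (N : ℝ) ^ 2 / H + 4 * N * C * (N * ((H : ℝ) * lam) ^ a + 2 * ((N : ℝ) ^ (1 - 2 / K) * ((H : ℝ) * lam) ^ (-a))) := by
    refine hap.trans ?_
    have h8 : 4 * (N : ℝ) / H * ∑ u ∈ Finset.Ico 1 H, ‖∑ n ∈ Finset.range (N - u), ee (F 0 (n + u) - F 0 n)‖ ≤
        4 * (N : ℝ) / H * (C * (H * (N * ((H : ℝ) * lam) ^ a) + (N : ℝ) ^ (1 - 2 / K) * lam ^ (-a) * (2 * (H : ℝ) ^ (1 - a)))) :=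
      mul_le_mul_of_nonneg_left h4 (by positivity)
    refine (add_le_add_right h8 _).trans (le_of_eq ?_)
    rw [h5, ← h6]
    field_simp
  -- the values
  have hyl : y * lam = lam ^ (1 - p) := by
    rw [hy, sub_eq_add_neg, add_comm, Real.rpow_add hl, Real.rpow_one]
  have h8 : ((H : ℝ) * lam) ^ a ≤ lam ^ p := by
    calc ((H : ℝ) * lam) ^ a ≤ (y * lam) ^ a :=
          Real.rpow_le_rpow (by positivity) (mul_le_mul_of_nonneg_right hHy hl.le) ha0.le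
      _ = lam ^ p := by rw [hyl, ← Real.rpow_mul hl.le, hpa]
  have h9 : ((H : ℝ) * lam) ^ (-a) ≤ 2 * lam ^ (-p) := by
    calc ((H : ℝ) * lam) ^ (-a) ≤ (y * lam / 2) ^ (-a) := by
          refine Real.rpow_le_rpow_of_nonpos (by positivity) ?_ (by linarith)
          nlinarith
      _ = lam ^ (-p) * (2 : ℝ) ^ a := by
          rw [hyl, Real.div_rpow (by positivity) (by norm_num), ← Real.rpow_mul hl.le, Real.rpow_neg (by norm_num : (0 : ℝ) ≤ 2)]
          rw [div_inv_eq_mul]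
          congr 2
          rw [mul_neg, hpa]
      _ ≤ lam ^ (-p) * 2 := by
          refine mul_le_mul_of_nonneg_left ?_ (by positivity)
          calc (2 : ℝ) ^ a ≤ (2 : ℝ) ^ (1 : ℝ) := Real.rpow_le_rpow_of_exponent_le (by norm_num) (by linarith)
            _ = 2 := Real.rpow_one 2
      _ = 2 * lam ^ (-p) := by ring
  have h10 : 2 * (N : ℝ) ^ 2 / H ≤ 4 * ((N : ℝ) ^ 2 * lam ^ p) := by
    have e1 : lam ^ p = y⁻¹ := by
      rw [hy, Real.rpow_neg hl.le, inv_inv]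
    rw [e1, div_le_iff₀ hH0]
    have e2 : 1 ≤ 2 * (y⁻¹ * H) := by
      rw [inv_mul_eq_div, mul_div_assoc', le_div_iff₀ hy0]
      linarith
    have e3 : 0 ≤ 2 * (N : ℝ) ^ 2 := by positivity
    calc 2 * (N : ℝ) ^ 2 = 2 * (N : ℝ) ^ 2 * 1 := by ring
      _ ≤ 2 * (N : ℝ) ^ 2 * (2 * (y⁻¹ * H)) := mul_le_mul_of_nonneg_left e2 e3
      _ = 4 * ((N : ℝ) ^ 2 * y⁻¹) * H := by ring
  have hA2 : A ^ 2 = (N : ℝ) ^ 2 * lam ^ p := by
    rw [hA, mul_pow]
    congr 1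
    rw [← Real.rpow_natCast, ← Real.rpow_mul hl.le]
    congr 1
    push_cast
    ring
  have hB2 : B ^ 2 = N * (N : ℝ) ^ (1 - 2 / K) * lam ^ (-p) := by
    rw [hB, mul_pow]
    congr 1
    · rw [← Real.rpow_natCast, ← Real.rpow_mul hN0]
      conv_rhs => rw [← Real.rpow_one (N : ℝ)]
      rw [Real.rpow_one, ← Real.rpow_one_add' hN0 (by linarith)]
      congr 1
      push_cast
      ring
    · rw [← Real.rpow_natCast, ← Real.rpow_mul hl.le]
      congr 1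
      push_cast
      ring
  have h11 : S ^ 2 ≤ (4 + 4 * C) * A ^ 2 + 16 * C * B ^ 2 := by
    refine h7.trans ?_
    rw [hA2, hB2]
    have h12 : 4 * (N : ℝ) * C * (N * ((H : ℝ) * lam) ^ a + 2 * ((N : ℝ) ^ (1 - 2 / K) * ((H : ℝ) * lam) ^ (-a))) ≤
        4 * (N : ℝ) * C * (N * lam ^ p + 2 * ((N : ℝ) ^ (1 - 2 / K) * (2 * lam ^ (-p)))) := by
      refine mul_le_mul_of_nonneg_left (add_le_add ?_ ?_) (by positivity)
      · exact mul_le_mul_of_nonneg_left h8 hN0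
      · refine mul_le_mul_of_nonneg_left (mul_le_mul_of_nonneg_left h9 (by positivity)) (by norm_num)
    calc _ ≤ 4 * ((N : ℝ) ^ 2 * lam ^ p) + 4 * (N : ℝ) * C * (N * lam ^ p + 2 * ((N : ℝ) ^ (1 - 2 / K) * (2 * lam ^ (-p)))) :=
          add_le_add h10 h12
      _ = _ := by ring
  have h12 : S ^ 2 ≤ ((4 * C + 4) * (A + B)) ^ 2 := by
    refine h11.trans ?_
    have e1 : 0 ≤ A * B := by positivity
    have e2 : 0 ≤ A ^ 2 := by positivity
    have e3 : 0 ≤ B ^ 2 := by positivity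
    have e4 : 0 ≤ C * A ^ 2 := by positivity
    have e5 : 0 ≤ C * B ^ 2 := by positivity
    have e6 : 0 ≤ C ^ 2 * A ^ 2 := by positivity
    have e7 : 0 ≤ C ^ 2 * B ^ 2 := by positivity
    have e8 : 0 ≤ (4 * C + 4) ^ 2 * (A * B) := by positivity
    have e9 : ((4 * C + 4) * (A + B)) ^ 2 = (4 + 4 * C) * A ^ 2 + 16 * C * B ^ 2 + (12 * A ^ 2 + 28 * (C * A ^ 2) +
        16 * (C ^ 2 * A ^ 2) + 16 * B ^ 2 + 16 * (C * B ^ 2) + 16 * (C ^ 2 * B ^ 2) +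
        2 * ((4 * C + 4) ^ 2 * (A * B))) := by ring
    rw [e9]
    linarith
  exact le_of_sq_le_sq h12 (by positivity)

/-- van der Corput's `k`-th derivative test -/
theorem vdc_test (h : ℝ) (hh : 0 ≤ h) (k : ℕ) : ∃ C : ℝ, 0 ≤ C ∧
    ∀ (F : ℕ → ℝ → ℝ) (N : ℕ) (lam : ℝ), 0 < lam → Tow (k + 2) F N lam h →
      ‖∑ n ∈ Finset.range N, ee (F 0 n)‖ ≤
        C * (N * lam ^ (1 / (2 * (2 : ℝ) ^ (k + 1) - 2)) +
          (N : ℝ) ^ (1 - 2 / (2 : ℝ) ^ (k + 1)) * lam ^ (-(1 / (2 * (2 : ℝ) ^ (k + 1) - 2)))) := by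
  induction k with
  | zero =>
    refine ⟨5 * h + 10, by positivity, fun F N lam hl T => ?_⟩
    have := test2 hh hl T
    norm_num at this ⊢
    exact this
  | succ k ih =>
    obtain ⟨C, hC, hC2⟩ := ih
    refine ⟨4 * C + 4, by positivity, fun F N lam hl T => ?_⟩
    have h1 : (2 : ℝ) ≤ 2 ^ (k + 1) := by
      have := one_le_pow₀ (M₀ := ℝ) (a := 2) (by norm_num) (n := k)
      rw [pow_succ]
      linarith
    have h2 := step h1 hC hC2 F N lam hl T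
    have e1 : 2 * (2 : ℝ) ^ (k + 1 + 1) - 2 = 4 * (2 : ℝ) ^ (k + 1) - 2 := by ring
    have e2 : 2 / (2 : ℝ) ^ (k + 1 + 1) = 1 / (2 : ℝ) ^ (k + 1) := by
      rw [pow_succ (2 : ℝ) (k + 1)]
      field_simp
    rw [e1, e2]
    exact h2

/-- the sixth derivative test -/
theorem test6 (h : ℝ) (hh : 0 ≤ h) : ∃ C : ℝ, 0 ≤ C ∧
    ∀ (F : ℕ → ℝ → ℝ) (N : ℕ) (lam : ℝ), 0 < lam → Tow 6 F N lam h →
      ‖∑ n ∈ Finset.range N, ee (F 0 n)‖ ≤
        C * (N * lam ^ (1 / 62 : ℝ) + (N : ℝ) ^ (15 / 16 : ℝ) * lam ^ (-(1 / 62) : ℝ)) := by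
  obtain ⟨C, hC, hC2⟩ := vdc_test h hh 4
  refine ⟨C, hC, fun F N lam hl T => ?_⟩
  have := hC2 F N lam hl T
  norm_num at this ⊢
  exact this

end Pool.Agent.Helper72.VC
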